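import Pool.Agent.helper71.DSW.SpecA

/-!
# Row dsw:FIA (MP_a87880_co): the count for large `n`
-/

set_option autoImplicit false

namespace Pool.Agent.DSW

open Equiv Finset Function Pool.Agent.helper48.PP
open scoped ENNReal Classical

theorem FIA (hINC : INC_stmt) (hGRM : GRM_stmt) (hSKW : SKW_stmt) (hRNM : RNM_stmt)
    (hEXF : EXF_stmt) (hCNT : CNT_stmt) (hDSU : DSU_stmt) (hGRO : GRO_stmt) (hLOG : LOG_stmt) :
    FIA_stmt := by
  obtain ⟨L₀, hL₀⟩ := hLOG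
  refine ⟨max L₀ 2, fun L hL => ?_⟩
  obtain ⟨h, hh, h9, h128⟩ := hL₀ L ((le_max_left _ _).trans hL)
  have hL2 : 2 ≤ L := (le_max_right _ _).trans hL
  obtain ⟨Z, hZ, hcard⟩ := hEXF h hh
  have hmin := hRNM h (3 * (h + 1) ^ 3) Z hZ
  have hl1 : 1 ≤ 3 * (h + 1) ^ 3 := by
    have : 0 < (h + 1) ^ 3 := by positivity
    omega
  have hM := hCNT (2 ^ h) (3 * (h + 1) ^ 3) (AF Z) (Finset.filter_subset _ _) hcard hl1 hmin
  have hLL : L * L - 1 = (L * L - 2) + 1 := by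
    have : 2 * 2 ≤ L * L := Nat.mul_le_mul hL2 hL2
    omega
  have hA : 128 * ((L * L - 2) * (L * L - 2)) < 2 ^ h := by
    refine lt_of_le_of_lt ?_ h128
    rw [pow_two]
    exact Nat.mul_le_mul_left _ (Nat.mul_le_mul (Nat.sub_le _ _) (Nat.sub_le _ _))
  obtain ⟨n₀, hn₀⟩ := hGRO (2 ^ h) ((L * L - 2) * (L * L - 2)) (NM (3 * (3 * (h + 1) ^ 3)) (2 ^ h)).card
    (by positivity) hA hM
  refine ⟨n₀, fun n hn => ?_⟩
  rw [hLL]
  calc avCount n (1 : Perm (Fin ((L * L - 2) + 1))) ≤ ((L * L - 2) * (L * L - 2)) ^ n := hINC _ n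
    _ < (NM (3 * (3 * (h + 1) ^ 3)) (2 ^ h)).card ^ (n / 2 ^ h) := hn₀ n hn
    _ ≤ (NM (3 * (3 * (h + 1) ^ 3) + 2) (n / 2 ^ h * 2 ^ h)).card := hDSU _ _ _
    _ ≤ avCount (n / 2 ^ h * 2 ^ h) (grid L) := hGRM.2 _ L _ (by
        have : 3 * (3 * (h + 1) ^ 3) = 9 * (h + 1) ^ 3 := by ring
        rw [this]
        exact h9)
    _ ≤ avCount n (grid L) := hSKW L hL2 (Nat.div_mul_le_self n _)

end Pool.Agent.DSW
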