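import Pool.Agent.helper71.DSW.SpecC

/-!
# Row dsw:KR2 (MP_a87880_co): the expectation of `n2`
-/

set_option autoImplicit false

namespace Pool.Agent.DSW

open Equiv Finset Function Pool.Agent.helper48.PP
open scoped ENNReal Classical

theorem KR2_gen (hPRD : PRD_stmt) (hGEO : GEO_stmt) {ι : Type} [Fintype ι] (H : ℕ) (hH : 1 ≤ H)
    (i1 i2 i3 : ι) (h12 : i1 ≠ i2) (h13 : i1 ≠ i3) (h23 : i2 ≠ i3) :
    Ex H (fun x : ι → ℕ => ((x i1 * (x i2 + 1) * (x i3 + 1).choose 2 : ℕ) : ℝ≥0∞)) =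
      ((H : ℝ≥0∞) * (H + 1)) ^ 2 := by
  obtain ⟨g0, g1, -, -, g4, -⟩ := hGEO H hH
  have e1 : ∀ x : ι → ℕ, (∏ i, wt H (x i)) * ((x i1 * (x i2 + 1) * (x i3 + 1).choose 2 : ℕ) : ℝ≥0∞) =
      ∏ i, (wt H (x i) * ((if i = i1 then (x i : ℝ≥0∞) else 1) * (if i = i2 then ((x i : ℝ≥0∞) + 1) else 1) *
        (if i = i3 then (((x i + 1).choose 2 : ℕ) : ℝ≥0∞) else 1))) := by
    intro x
    rw [Finset.prod_mul_distrib, Finset.prod_mul_distrib, Finset.prod_mul_distrib,
      Finset.prod_ite_eq' Finset.univ i1, Finset.prod_ite_eq' Finset.univ i2,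
      Finset.prod_ite_eq' Finset.univ i3, if_pos (Finset.mem_univ _), if_pos (Finset.mem_univ _),
      if_pos (Finset.mem_univ _)]
    push_cast
    rfl
  have e2 : ∀ i : ι, ∑' j : ℕ, (wt H j * ((if i = i1 then (j : ℝ≥0∞) else 1) *
      (if i = i2 then ((j : ℝ≥0∞) + 1) else 1) *
        (if i = i3 then (((j + 1).choose 2 : ℕ) : ℝ≥0∞) else 1))) =
      (if i = i1 then (H : ℝ≥0∞) else 1) * (if i = i2 then ((H : ℝ≥0∞) + 1) else 1) *
        (if i = i3 then ((H : ℝ≥0∞) ^ 2 + H) else 1) := by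
    intro i
    by_cases c1 : i = i1
    · subst c1
      simp only [if_true, if_neg h12, if_neg h13, mul_one]
      exact g1
    · by_cases c2 : i = i2
      · subst c2
        simp only [if_true, if_neg c1, if_neg h23, mul_one, one_mul]
        simp only [mul_add, mul_one]
        rw [ENNReal.tsum_add, g1, g0]
      · by_cases c3 : i = i3
        · subst c3
          simp only [if_true, if_neg c1, if_neg c2, mul_one, one_mul]
          exact g4
        · simp only [if_neg c1, if_neg c2, if_neg c3, mul_one]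
          exact g0
  unfold Ex
  rw [tsum_congr e1, hPRD ι (fun i j => wt H j * ((if i = i1 then (j : ℝ≥0∞) else 1) *
      (if i = i2 then ((j : ℝ≥0∞) + 1) else 1) *
        (if i = i3 then (((j + 1).choose 2 : ℕ) : ℝ≥0∞) else 1))), Finset.prod_congr rfl (fun i _ => e2 i),
    Finset.prod_mul_distrib, Finset.prod_mul_distrib,
      Finset.prod_ite_eq' Finset.univ i1, Finset.prod_ite_eq' Finset.univ i2,
      Finset.prod_ite_eq' Finset.univ i3, if_pos (Finset.mem_univ _), if_pos (Finset.mem_univ _),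
      if_pos (Finset.mem_univ _)]
  ring

theorem KR2 (hPRD : PRD_stmt) (hGEO : GEO_stmt) : KR2_stmt := by
  intro L H q hH hq
  have h1 : (q.1 : ℕ) + 1 = (q.2.1 : ℕ) := (Finset.mem_filter.1 hq).2
  refine le_of_eq (KR2_gen hPRD hGEO H hH (false, q.1, q.2.2.castSucc) (false, q.2.1, q.2.2.succ)
    (true, q.2.2, q.2.1.succ) ?_ ?_ ?_)
  · intro h
    have h2 : q.1 = q.2.1 := congrArg (fun z : Bool × Fin L × Fin (L + 1) => z.2.1) h
    rw [h2] at h1
    omega
  · intro h
    exact Bool.false_ne_true (congrArg Prod.fst h)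
  · intro h
    exact Bool.false_ne_true (congrArg Prod.fst h)

end Pool.Agent.DSW
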