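import Pool.Agent.helper71.DSW.SpecC

/-!
# Row dsw:WTL (MP_a87880_co): the memoryless property
-/

set_option autoImplicit false

namespace Pool.Agent.DSW

open Equiv Finset Function Pool.Agent.helper48.PP
open scoped ENNReal Classical

theorem WTL_wt (H j : ℕ) : wt H j = (H : ℝ≥0∞) ^ j * (((H : ℝ≥0∞) + 1)⁻¹) ^ (j + 1) := by
  unfold wt
  rw [div_eq_mul_inv, ENNReal.inv_pow]

theorem WTL (hPOS : POS_stmt) : WTL_stmt := by
  intro L H g hH
  have h1 := (hPOS.1 L g).2.2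
  have h2 : ∏ j, wt H (g j) = (H : ℝ≥0∞) ^ (∑ j, g j) * (((H : ℝ≥0∞) + 1)⁻¹) ^ ((∑ j, g j) + (L + 1)) := by
    rw [Finset.prod_congr rfl (fun j _ => WTL_wt H (g j)), Finset.prod_mul_distrib,
      Finset.prod_pow_eq_pow_sum, Finset.prod_pow_eq_pow_sum, Finset.sum_add_distrib]
    simp
  rw [h1, h2, WTL_wt]
  ring

end Pool.Agent.DSW
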